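import Mathlib

set_option autoImplicit false

open Polynomial IntermediateField

namespace Pool.Agent.TH211.CovJ

/-- clearing denominators -/
theorem clear_denom {R F : Type*} [CommRing R] [IsDomain R] [Field F] [Algebra R F]
    [IsFractionRing R F] (q : F[X]) :
    ∃ (d : R) (Q : R[X]), d ≠ 0 ∧ Q.map (algebraMap R F) = d • q := by
  obtain ⟨b, hb, h⟩ := IsLocalization.integerNormalization_spec (nonZeroDivisors R) q
  exact ⟨b, IsLocalization.integerNormalization (nonZeroDivisors R) q,
    nonZeroDivisors.ne_zero hb, h⟩

theorem finDim {R A F K : Type*} [CommRing R] [IsDomain R] [CommRing A] [IsDomain A]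
    [Algebra R A] [Module.Finite R A] [FaithfulSMul R A] [Field F] [Field K] [Algebra R F]
    [IsFractionRing R F] [Algebra A K] [IsFractionRing A K] [Algebra F K] [Algebra R K]
    [IsScalarTower R F K] [IsScalarTower R A K] : FiniteDimensional F K := by
  obtain ⟨T, hT⟩ := (Module.Finite.fg_top : (⊤ : Submodule R A).FG)
  classical
  refine ⟨⟨T.image (algebraMap A K), ?_⟩⟩
  rw [eq_top_iff]
  have key : ∀ a : A, algebraMap A K a ∈ Submodule.span F (T.image (algebraMap A K) : Set K) := by
    intro a
    have ha : a ∈ Submodule.span R (T : Set A) := by rw [hT]; trivial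
    induction ha using Submodule.span_induction with
    | mem x hx => 
      apply Submodule.subset_span
      rw [Finset.coe_image]
      exact ⟨x, hx, rfl⟩
    | zero => rw [map_zero]; exact zero_mem _
    | add x y _ _ hx hy => rw [map_add]; exact add_mem hx hy
    | smul r x _ hx =>
      rw [Algebra.smul_def, map_mul, ← IsScalarTower.algebraMap_apply R A K,
        IsScalarTower.algebraMap_apply R F K, ← Algebra.smul_def]
      exact Submodule.smul_mem _ _ hx
  rintro x -
  obtain ⟨a, b, hb, rfl⟩ := IsFractionRing.div_surjective (A := A) x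
  have hb0 : b ≠ 0 := nonZeroDivisors.ne_zero hb
  obtain ⟨w, d, hd, hw⟩ := Algebra.IsAlgebraic.exists_smul_eq_mul R a hb0
  have h1 : algebraMap A K b ≠ 0 := by
    simpa using hb0
  have h2 : algebraMap F K (algebraMap R F d) ≠ 0 := by
    simpa using hd
  have h3 : algebraMap A K a / algebraMap A K b =
      (algebraMap R F d)⁻¹ • algebraMap A K w := by
    rw [Algebra.smul_def, map_inv₀, div_eq_iff h1, mul_assoc, ← map_mul, mul_comm w b, ← hw,
      Algebra.smul_def, map_mul, ← IsScalarTower.algebraMap_apply R A K,
      IsScalarTower.algebraMap_apply R F K, inv_mul_cancel_left₀ h2]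
  rw [h3]
  exact Submodule.smul_mem _ _ (key w)

theorem primitive {R A : Type*} [CommRing R] [IsDomain R] [IsIntegrallyClosed R] [CharZero R]
    [CommRing A] [IsDomain A] [Algebra R A] [Module.Finite R A] [FaithfulSMul R A] :
    ∃ w : A, (∀ x : A, ∃ (D : R) (Q : R[X]), D ≠ 0 ∧ algebraMap R A D * x = aeval w Q) ∧
      ∃ (a b : R[X]) (D : R), D ≠ 0 ∧
        a * minpoly R w + b * derivative (minpoly R w) = C D := by
  let F := FractionRing R
  let K := FractionRing A
  let _ : Algebra F K := FractionRing.liftAlgebra R K
  have : IsScalarTower R F K := FractionRing.isScalarTower_liftAlgebra R K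
  have : Algebra.IsIntegral R A := inferInstance
  have : Module.IsTorsionFree R A := inferInstance
  have : FiniteDimensional F K := finDim (R := R) (A := A)
  have : CharZero F := charZero_of_injective_algebraMap (IsFractionRing.injective R F)
  have : CharZero K := charZero_of_injective_algebraMap (algebraMap F K).injective
  obtain ⟨α, hα⟩ := Field.exists_primitive_element F K
  obtain ⟨a, b, hb, rfl⟩ := IsFractionRing.div_surjective (A := A) α
  have hb0 : b ≠ 0 := nonZeroDivisors.ne_zero hb
  obtain ⟨w, d, hd, hw⟩ := Algebra.IsAlgebraic.exists_smul_eq_mul R a hb0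
  have h1 : algebraMap A K b ≠ 0 := by
    simpa using hb0
  have h2 : algebraMap F K (algebraMap R F d) ≠ 0 := by
    simpa using hd
  have h3 : algebraMap A K a / algebraMap A K b =
      algebraMap F K ((algebraMap R F d)⁻¹) * algebraMap A K w := by
    rw [map_inv₀, div_eq_iff h1, mul_assoc, ← map_mul, mul_comm w b, ← hw,
      Algebra.smul_def, map_mul, ← IsScalarTower.algebraMap_apply R A K,
      IsScalarTower.algebraMap_apply R F K, inv_mul_cancel_left₀ h2]
  have hprim : F⟮algebraMap A K w⟯ = ⊤ := by
    rw [eq_top_iff, ← hα, adjoin_simple_le_iff]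
    rw [h3]
    exact mul_mem (IntermediateField.algebraMap_mem _ _) (mem_adjoin_simple_self F _)
  have hwint : IsIntegral R w := Algebra.IsIntegral.isIntegral w
  have hmin : minpoly F (algebraMap A K w) = (minpoly R w).map (algebraMap R F) :=
    minpoly.isIntegrallyClosed_eq_field_fractions F K hwint
  have hwF : IsIntegral F (algebraMap A K w) := Algebra.IsIntegral.isIntegral _
  refine ⟨w, ?_, ?_⟩
  · intro x
    have hx : algebraMap A K x ∈ F⟮algebraMap A K w⟯ := by rw [hprim]; trivial
    rw [← IntermediateField.mem_toSubalgebra,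
      IntermediateField.adjoin_simple_toSubalgebra_of_isAlgebraic hwF.isAlgebraic,
      Algebra.adjoin_singleton_eq_range_aeval] at hx
    obtain ⟨q, hq⟩ := hx
    obtain ⟨D, Q, hD, hQ⟩ := clear_denom (R := R) q
    refine ⟨D, Q, hD, ?_⟩
    apply IsFractionRing.injective A K
    have h4 : algebraMap A K (aeval w Q) = aeval (algebraMap A K w) (Q.map (algebraMap R F)) := by
      rw [aeval_map_algebraMap, aeval_algebraMap_apply]
    have hq' : aeval (algebraMap A K w) q = algebraMap A K x := hq
    rw [h4, hQ, map_mul, ← hq', ← IsScalarTower.algebraMap_apply R A K,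
      IsScalarTower.algebraMap_apply R F K, ← Algebra.smul_def, ← map_smul, algebraMap_smul]
  · have hsep : (minpoly F (algebraMap A K w)).Separable :=
      (minpoly.irreducible hwF).separable
    rw [hmin] at hsep
    obtain ⟨u, v, huv⟩ := hsep
    obtain ⟨d1, U, hd1, hU⟩ := clear_denom (R := R) u
    obtain ⟨d2, V, hd2, hV⟩ := clear_denom (R := R) v
    refine ⟨C d2 * U, C d1 * V, d1 * d2, mul_ne_zero hd1 hd2, ?_⟩
    apply Polynomial.map_injective (algebraMap R F) (IsFractionRing.injective R F)
    have e1 : d1 • u = C (algebraMap R F d1) * u := by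
      rw [← Polynomial.smul_eq_C_mul, algebraMap_smul]
    have e2 : d2 • v = C (algebraMap R F d2) * v := by
      rw [← Polynomial.smul_eq_C_mul, algebraMap_smul]
    rw [Polynomial.map_add, Polynomial.map_mul, Polynomial.map_mul, Polynomial.map_mul,
      Polynomial.map_mul, hU, hV, ← derivative_map, map_C, map_C, map_C, e1, e2, map_mul, C_mul]
    linear_combination C (algebraMap R F d1) * C (algebraMap R F d2) * huv

end Pool.Agent.TH211.CovJ
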