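import Mathlib
import Pool.Agent.Helper113.Gorin.Defs
import Pool.Agent.TH211.CovJ.Alg

set_option autoImplicit false

open H113G

namespace Pool.Agent.TH211.CovJ

theorem exists_data_aux {m : ℕ} {Y : Set (Fin m → ℂ)} (hY : IsAlg Y)
    {A : Type*} [CommRing A] [IsDomain A] [Algebra ℂ A] (π : MvPolynomial (Fin m) ℂ →ₐ[ℂ] A)
    (hπ : Function.Surjective π)
    (memI : ∀ f : MvPolynomial (Fin m) ℂ, π f = 0 ↔ ∀ y ∈ Y, MvPolynomial.eval y f = 0) :
    ∃ (k : ℕ) (p : Fin k → MvPolynomial (Fin m) ℂ) (W : MvPolynomial (Fin m) ℂ)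
      (P : Polynomial (MvPolynomial (Fin k) ℂ)) (D : Fin m → MvPolynomial (Fin k) ℂ)
      (Q : Fin m → Polynomial (MvPolynomial (Fin k) ℂ))
      (M : Fin m → Polynomial (MvPolynomial (Fin k) ℂ))
      (a b : Polynomial (MvPolynomial (Fin k) ℂ)) (D1 : MvPolynomial (Fin k) ℂ),
      P.Monic ∧ (∀ j, D j ≠ 0) ∧ D1 ≠ 0 ∧ a * P + b * Polynomial.derivative P = Polynomial.C D1 ∧
      (∀ G : MvPolynomial (Fin k) ℂ, G ≠ 0 →
        ∃ y ∈ Y, MvPolynomial.eval (fun i => MvPolynomial.eval y (p i)) G ≠ 0) ∧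
      (∀ y ∈ Y, (P.map (MvPolynomial.eval (fun i => MvPolynomial.eval y (p i)))).eval
        (MvPolynomial.eval y W) = 0) ∧
      (∀ y ∈ Y, ∀ j, MvPolynomial.eval (fun i => MvPolynomial.eval y (p i)) (D j) * y j =
        ((Q j).map (MvPolynomial.eval (fun i => MvPolynomial.eval y (p i)))).eval
          (MvPolynomial.eval y W)) ∧
      (∀ y ∈ Y, ∀ j, ((M j).map (MvPolynomial.eval (fun i => MvPolynomial.eval y (p i)))).eval
        (y j) = 0) ∧ (∀ j, (M j).Monic) ∧
      (∀ (z : Fin k → ℂ) (ω : ℂ), (P.map (MvPolynomial.eval z)).eval ω = 0 →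
        ∃ y ∈ Y, (∀ i, MvPolynomial.eval y (p i) = z i) ∧ MvPolynomial.eval y W = ω) := by
  classical
  have hft : Algebra.FiniteType ℂ A := Algebra.FiniteType.of_surjective π hπ
  obtain ⟨k, g, ginj, gfin⟩ := exists_finite_inj_algHom_of_fg ℂ A
  let _ : Algebra (MvPolynomial (Fin k) ℂ) A := g.toRingHom.toAlgebra
  have : Module.Finite (MvPolynomial (Fin k) ℂ) A := gfin
  have : FaithfulSMul (MvPolynomial (Fin k) ℂ) A :=
    (faithfulSMul_iff_algebraMap_injective _ _).2 ginj
  have : Algebra.IsIntegral (MvPolynomial (Fin k) ℂ) A := inferInstance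
  obtain ⟨w, hw1, a, b, D1, hD1, hab⟩ := primitive (R := MvPolynomial (Fin k) ℂ)
    (A := A)
  choose p hp using fun i : Fin k => hπ (g (MvPolynomial.X i))
  obtain ⟨W, hW⟩ := hπ w
  choose D Q hD hQ using fun j : Fin m => hw1 (π (MvPolynomial.X j))
  -- evaluation at a point of `Y`
  have hev2 : ∀ y ∈ Y, ∃ ev : A →+* ℂ,
      (∀ f, ev (π f) = MvPolynomial.eval y f) ∧
      (∀ G, ev (g G) = MvPolynomial.eval (fun i => MvPolynomial.eval y (p i)) G) ∧
      ∀ (T : Polynomial (MvPolynomial (Fin k) ℂ)) (x : A),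
        ev (Polynomial.aeval x T) =
        (T.map (MvPolynomial.eval (fun i => MvPolynomial.eval y (p i)))).eval (ev x) := by
    intro y hy
    let ev : A →+* ℂ := RingHom.liftOfSurjective π.toRingHom hπ
      ⟨MvPolynomial.eval y, by
        intro f hf
        exact (memI f).1 hf y hy⟩
    have h1 : ∀ f, ev (π f) = MvPolynomial.eval y f := fun f =>
      RingHom.liftOfRightInverse_comp_apply _ _ _ _ _
    have h2 : ∀ G, ev (g G) = MvPolynomial.eval (fun i => MvPolynomial.eval y (p i)) G := by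
      intro G
      have : ev.comp g.toRingHom =
          MvPolynomial.eval (fun i => MvPolynomial.eval y (p i)) := by
        apply MvPolynomial.ringHom_ext
        · intro r
          have : g (MvPolynomial.C r) = π (MvPolynomial.C r) :=
            (g.commutes r).trans (π.commutes r).symm
          simp only [RingHom.comp_apply, AlgHom.toRingHom_eq_coe, RingHom.coe_coe]
          rw [this, h1]
          simp
        · intro i
          simp only [RingHom.comp_apply, AlgHom.toRingHom_eq_coe, RingHom.coe_coe]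
          rw [← hp i, h1]
          simp
      exact congrFun (congrArg DFunLike.coe this) G
    refine ⟨ev, h1, h2, ?_⟩
    intro T x
    rw [Polynomial.aeval_def, Polynomial.hom_eval₂, Polynomial.eval_map]
    congr 1
    ext G
    · exact h2 _
    · exact h2 _
  have hwint : IsIntegral (MvPolynomial (Fin k) ℂ) w := Algebra.IsIntegral.isIntegral w
  refine ⟨k, p, W, minpoly _ w, D, Q, fun j => minpoly _ (π (MvPolynomial.X j)),
    a, b, D1, minpoly.monic hwint, hD, hD1, hab, ?_, ?_, ?_, ?_, ?_, ?_⟩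
  · intro G hG
    by_contra hcon
    push Not at hcon
    obtain ⟨f, hf⟩ := hπ (g G)
    have : π f = 0 := by
      rw [memI]
      intro y hy
      obtain ⟨ev, h1, h2, -⟩ := hev2 y hy
      rw [← h1, hf, h2, hcon y hy]
    rw [hf] at this
    exact hG (ginj (by rw [this, map_zero]))
  · intro y hy
    obtain ⟨ev, h1, h2, h3⟩ := hev2 y hy
    rw [← h1, hW, ← h3, minpoly.aeval, map_zero]
  · intro y hy j
    obtain ⟨ev, h1, h2, h3⟩ := hev2 y hy
    have := congrArg ev (hQ j)
    rw [map_mul, h3, h1, ← hW, h1] at this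
    rw [← this]
    rw [show algebraMap (MvPolynomial (Fin k) ℂ) A (D j) = g (D j)
      from rfl, h2]
    simp
  · intro y hy j
    obtain ⟨ev, h1, h2, h3⟩ := hev2 y hy
    have := congrArg ev (minpoly.aeval (MvPolynomial (Fin k) ℂ)
      (π (MvPolynomial.X j)))
    rw [h3, map_zero, h1] at this
    simpa using this
  · intro j
    exact minpoly.monic (Algebra.IsIntegral.isIntegral _)
  · intro z ω hzω
    -- the maximal ideal of `R[T]` of the point `(z, ω)`
    let ρ : Polynomial (MvPolynomial (Fin k) ℂ) →+* ℂ :=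
      Polynomial.eval₂RingHom (MvPolynomial.eval z) ω
    have hρ : Function.Surjective ρ := by
      intro c
      exact ⟨Polynomial.C (MvPolynomial.C c), by simp [ρ]⟩
    have hmax : (RingHom.ker ρ).IsMaximal := RingHom.ker_isMaximal_of_surjective ρ hρ
    let _ : Algebra (Polynomial (MvPolynomial (Fin k) ℂ)) A :=
      (Polynomial.aeval w).toRingHom.toAlgebra
    have htow : IsScalarTower (MvPolynomial (Fin k) ℂ) (Polynomial (MvPolynomial (Fin k) ℂ))
        A := by
      apply IsScalarTower.of_algebraMap_eq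
      intro x
      change _ = Polynomial.aeval w (algebraMap _ _ x)
      rw [Polynomial.algebraMap_apply, Algebra.algebraMap_self, RingHom.id_apply,
        Polynomial.aeval_C]
    have hint : Algebra.IsIntegral (Polynomial (MvPolynomial (Fin k) ℂ)) A :=
      Algebra.IsIntegral.tower_top (MvPolynomial (Fin k) ℂ)
    obtain ⟨N, -, hN, hNc⟩ := Ideal.exists_ideal_over_prime_of_isIntegral (RingHom.ker ρ)
      (⊥ : Ideal A) (by
        intro T hT
        have hT' : Polynomial.aeval w T = 0 := by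
          rw [Ideal.mem_comap, Ideal.mem_bot] at hT
          exact hT
        obtain ⟨U, rfl⟩ := minpoly.isIntegrallyClosed_dvd hwint hT'
        rw [RingHom.mem_ker, map_mul]
        have : ρ (minpoly (MvPolynomial (Fin k) ℂ) w) = 0 := by
          rw [← hzω, Polynomial.eval_map]; rfl
        rw [this, zero_mul])
    have hNmax : N.IsMaximal := Ideal.isMaximal_of_isIntegral_of_isMaximal_comap N
      (by rw [hNc]; exact hmax)
    have hN' : (N.comap π.toRingHom).IsMaximal :=
      Ideal.comap_isMaximal_of_surjective _ hπ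
    obtain ⟨y, hy⟩ := MvPolynomial.isMaximal_iff_eq_vanishingIdeal_singleton.1 hN'
    have hy' : ∀ f, π f ∈ N ↔ MvPolynomial.eval y f = 0 := by
      intro f
      have : π f ∈ N ↔ f ∈ N.comap π.toRingHom := Iff.rfl
      rw [this, hy, MvPolynomial.mem_vanishingIdeal_singleton_iff]
      rfl
    have hNρ : ∀ T : Polynomial (MvPolynomial (Fin k) ℂ), ρ T = 0 → Polynomial.aeval w T ∈ N := by
      intro T hT
      have : T ∈ N.comap (algebraMap (Polynomial (MvPolynomial (Fin k) ℂ)) A) := by
        rw [hNc]; exact hT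
      exact this
    refine ⟨y, ?_, ?_, ?_⟩
    · obtain ⟨S, hS⟩ := hY
      rw [hS]
      intro f hf
      rw [← hy']
      have : π f = 0 := by
        rw [memI]
        intro y' hy'
        rw [hS] at hy'
        exact hy' f hf
      rw [this]
      exact zero_mem _
    · intro i
      have := hNρ (Polynomial.C (MvPolynomial.X i - MvPolynomial.C (z i))) (by simp [ρ])
      rw [Polynomial.aeval_C] at this
      have e : algebraMap (MvPolynomial (Fin k) ℂ) A
          (MvPolynomial.X i - MvPolynomial.C (z i)) =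
          π (p i - MvPolynomial.C (z i)) := by
        rw [map_sub, map_sub, hp i]
        congr 1
        exact (g.commutes (z i)).trans (π.commutes (z i)).symm
      rw [e, hy', map_sub, MvPolynomial.eval_C, sub_eq_zero] at this
      exact this
    · have := hNρ (Polynomial.X - Polynomial.C (MvPolynomial.C ω)) (by simp [ρ])
      rw [map_sub, Polynomial.aeval_X, Polynomial.aeval_C, ← hW] at this
      have e : algebraMap (MvPolynomial (Fin k) ℂ) A
          (MvPolynomial.C ω) = π (MvPolynomial.C ω) :=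
        (g.commutes ω).trans (π.commutes ω).symm
      rw [e, ← map_sub, hy', map_sub, MvPolynomial.eval_C, sub_eq_zero] at this
      exact this

theorem exists_data {m : ℕ} {Y : Set (Fin m → ℂ)} (hY : IsAlg Y) (hne : Y.Nonempty)
    (hprime : ∀ P Q : MvPolynomial (Fin m) ℂ, (∀ y ∈ Y, MvPolynomial.eval y (P * Q) = 0) →
      (∀ y ∈ Y, MvPolynomial.eval y P = 0) ∨ (∀ y ∈ Y, MvPolynomial.eval y Q = 0)) :
    ∃ (k : ℕ) (p : Fin k → MvPolynomial (Fin m) ℂ) (W : MvPolynomial (Fin m) ℂ)
      (P : Polynomial (MvPolynomial (Fin k) ℂ)) (D : Fin m → MvPolynomial (Fin k) ℂ)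
      (Q : Fin m → Polynomial (MvPolynomial (Fin k) ℂ))
      (M : Fin m → Polynomial (MvPolynomial (Fin k) ℂ))
      (a b : Polynomial (MvPolynomial (Fin k) ℂ)) (D1 : MvPolynomial (Fin k) ℂ),
      P.Monic ∧ (∀ j, D j ≠ 0) ∧ D1 ≠ 0 ∧ a * P + b * Polynomial.derivative P = Polynomial.C D1 ∧
      (∀ G : MvPolynomial (Fin k) ℂ, G ≠ 0 →
        ∃ y ∈ Y, MvPolynomial.eval (fun i => MvPolynomial.eval y (p i)) G ≠ 0) ∧
      (∀ y ∈ Y, (P.map (MvPolynomial.eval (fun i => MvPolynomial.eval y (p i)))).eval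
        (MvPolynomial.eval y W) = 0) ∧
      (∀ y ∈ Y, ∀ j, MvPolynomial.eval (fun i => MvPolynomial.eval y (p i)) (D j) * y j =
        ((Q j).map (MvPolynomial.eval (fun i => MvPolynomial.eval y (p i)))).eval
          (MvPolynomial.eval y W)) ∧
      (∀ y ∈ Y, ∀ j, ((M j).map (MvPolynomial.eval (fun i => MvPolynomial.eval y (p i)))).eval
        (y j) = 0) ∧ (∀ j, (M j).Monic) ∧
      (∀ (z : Fin k → ℂ) (ω : ℂ), (P.map (MvPolynomial.eval z)).eval ω = 0 →
        ∃ y ∈ Y, (∀ i, MvPolynomial.eval y (p i) = z i) ∧ MvPolynomial.eval y W = ω) := by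
  let I : Ideal (MvPolynomial (Fin m) ℂ) := MvPolynomial.vanishingIdeal ℂ Y
  have memI : ∀ f : MvPolynomial (Fin m) ℂ, f ∈ I ↔ ∀ y ∈ Y, MvPolynomial.eval y f = 0 := by
    intro f
    exact Iff.rfl
  have hItop : I ≠ ⊤ := by
    intro h
    obtain ⟨y, hy⟩ := hne
    have : (1 : MvPolynomial (Fin m) ℂ) ∈ I := by rw [h]; trivial
    have := (memI 1).1 this y hy
    simp at this
  have hIp : I.IsPrime := by
    refine ⟨hItop, ?_⟩
    intro x y hxy
    exact hprime x y ((memI _).1 hxy)
  exact exists_data_aux hY (Ideal.Quotient.mkₐ ℂ I) (Ideal.Quotient.mkₐ_surjective ℂ I)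
    (fun f => by
      rw [Ideal.Quotient.mkₐ_eq_mk, Ideal.Quotient.eq_zero_iff_mem]
      exact memI f)

end Pool.Agent.TH211.CovJ
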