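import Mathlib
import Pool.Agent.Helper113.Gorin.Defs
import Pool.Agent.TH211.CovJ.Alg2

set_option autoImplicit false

open H113G Metric Set Topology Filter

namespace Pool.Agent.TH211.CovJ

theorem contDiff_mv {k : ℕ} (G : MvPolynomial (Fin k) ℂ) :
    ContDiff ℂ 1 (fun z : Fin k → ℂ => MvPolynomial.eval z G) := by
  induction G using MvPolynomial.induction_on with
  | C a => simpa using contDiff_const
  | add p q hp hq => simpa using hp.add hq
  | mul_X p i hp =>
    simp only [map_mul, MvPolynomial.eval_X]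
    exact hp.mul (contDiff_apply ℂ ℂ i)

/-- value of a polynomial with coefficients in `ℂ[z]` -/
noncomputable def val {k : ℕ} (T : Polynomial (MvPolynomial (Fin k) ℂ)) (z : Fin k → ℂ) (t : ℂ) :
    ℂ := (T.map (MvPolynomial.eval z)).eval t

theorem val_eq {k : ℕ} (T : Polynomial (MvPolynomial (Fin k) ℂ)) (z : Fin k → ℂ) (t : ℂ) :
    val T z t = ∑ i ∈ Finset.range (T.natDegree + 1), MvPolynomial.eval z (T.coeff i) * t ^ i := by
  rw [val, Polynomial.eval_map, Polynomial.eval₂_eq_sum_range]

theorem contDiff_val {k : ℕ} (T : Polynomial (MvPolynomial (Fin k) ℂ)) :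
    ContDiff ℂ 1 (fun u : (Fin k → ℂ) × ℂ => val T u.1 u.2) := by
  simp only [val_eq]
  apply ContDiff.sum
  intro i _
  exact ((contDiff_mv (T.coeff i)).comp contDiff_fst).mul (contDiff_snd.pow i)

/-- local holomorphic root branch -/
theorem root_branch {k : ℕ} (P : Polynomial (MvPolynomial (Fin k) ℂ)) (z : Fin k → ℂ) (ω : ℂ)
    (h0 : val P z ω = 0) (h1 : val (Polynomial.derivative P) z ω ≠ 0) :
    ∃ ψ : (Fin k → ℂ) → ℂ, ψ z = ω ∧ (∀ᶠ z' in 𝓝 z, DifferentiableAt ℂ ψ z') ∧
      ∀ᶠ z' in 𝓝 z, val P z' (ψ z') = 0 := by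
  have hf : ContDiffAt ℂ 1 (fun u : (Fin k → ℂ) × ℂ => val P u.1 u.2) (z, ω) :=
    (contDiff_val P).contDiffAt
  have hF : HasFDerivAt (fun u : (Fin k → ℂ) × ℂ => val P u.1 u.2)
      (fderiv ℂ (fun u : (Fin k → ℂ) × ℂ => val P u.1 u.2) (z, ω)) (z, ω) :=
    (hf.differentiableAt one_ne_zero).hasFDerivAt
  have hin : HasFDerivAt (fun t : ℂ => ((z, t) : (Fin k → ℂ) × ℂ))
      (ContinuousLinearMap.inr ℂ (Fin k → ℂ) ℂ) ω := hasFDerivAt_prodMk_right z ω
  have hcomp := HasFDerivAt.comp ω hF hin
  have hpoly : HasDerivAt (fun t => val P z t) (val (Polynomial.derivative P) z ω) ω := by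
    have := (P.map (MvPolynomial.eval z)).hasDerivAt ω
    rw [Polynomial.derivative_map] at this
    exact this
  have hval : (fderiv ℂ (fun u : (Fin k → ℂ) × ℂ => val P u.1 u.2) (z, ω) ∘L
      ContinuousLinearMap.inr ℂ (Fin k → ℂ) ℂ) 1 = val (Polynomial.derivative P) z ω := by
    have h2 := hcomp.hasDerivAt
    exact h2.unique hpoly
  have hinv : (fderiv ℂ (fun u : (Fin k → ℂ) × ℂ => val P u.1 u.2) (z, ω) ∘L
      ContinuousLinearMap.inr ℂ (Fin k → ℂ) ℂ).IsInvertible := by
    refine ⟨ContinuousLinearEquiv.smulLeft (Units.mk0 _ h1), ?_⟩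
    ext
    rw [hval]
    simp
  refine ⟨hf.implicitFunction one_ne_zero hinv, ?_, ?_, ?_⟩
  · exact hf.implicitFunction_apply_self one_ne_zero hinv
  · have h3 := hf.contDiffAt_implicitFunction one_ne_zero hinv
    have h4 := h3.eventually (by simp)
    filter_upwards [h4] with z' hz'
    exact hz'.differentiableAt one_ne_zero
  · have h3 := hf.eventually_apply_implicitFunction one_ne_zero hinv
    filter_upwards [h3] with z' hz'
    rw [← h0]
    exact hz'

/-- the fibre of roots over a point with nonzero discriminant -/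
theorem roots_fibre {q : Polynomial ℂ} (hq : q.Monic) (hs : q.Separable) :
    ∃ ω : Fin q.natDegree → ℂ, Function.Injective ω ∧ ∀ i, q.eval (ω i) = 0 := by
  classical
  have hcard : q.roots.toFinset.card = q.natDegree := by
    rw [Multiset.toFinset_card_of_nodup (Polynomial.nodup_roots hs)]
    exact (Polynomial.splits_iff_card_roots.1 (IsAlgClosed.splits q))
  let e := q.roots.toFinset.equivFinOfCardEq hcard
  refine ⟨fun i => (e.symm i : ℂ), fun i j hij => e.symm.injective (Subtype.ext hij), ?_⟩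
  intro i
  have := (e.symm i).2
  rw [Multiset.mem_toFinset] at this
  exact (Polynomial.mem_roots'.1 this).2

theorem all_roots {q : Polynomial ℂ} (hq : q.Monic) {n : ℕ} (hn : q.natDegree = n)
    (ω : Fin n → ℂ) (hinj : Function.Injective ω) (h0 : ∀ i, q.eval (ω i) = 0) (x : ℂ)
    (hx : q.eval x = 0) : ∃ i, x = ω i := by
  classical
  by_contra hcon
  push Not at hcon
  have hsub : insert x (Finset.univ.image ω) ⊆ q.roots.toFinset := by
    intro y hy
    rw [Multiset.mem_toFinset, Polynomial.mem_roots hq.ne_zero, Polynomial.IsRoot.def]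
    rw [Finset.mem_insert, Finset.mem_image] at hy
    rcases hy with rfl | ⟨i, -, rfl⟩
    · exact hx
    · exact h0 i
  have h1 := Finset.card_le_card hsub
  rw [Finset.card_insert_of_notMem, Finset.card_image_of_injective _ hinj, Finset.card_fin] at h1
  · have h2 := (Multiset.toFinset_card_le q.roots).trans (Polynomial.card_roots' q)
    omega
  · rw [Finset.mem_image]
    rintro ⟨i, -, hi⟩
    exact hcon i hi.symm

theorem root_bound {q : Polynomial ℂ} (hq : q.Monic) {x : ℂ} (hx : q.eval x = 0) :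
    ‖x‖ ≤ 1 + ∑ i ∈ Finset.range q.natDegree, ‖q.coeff i‖ := by
  have hS : 0 ≤ ∑ i ∈ Finset.range q.natDegree, ‖q.coeff i‖ :=
    Finset.sum_nonneg fun i _ => norm_nonneg _
  rcases le_or_gt ‖x‖ 1 with h1 | h1
  · linarith
  · rcases Nat.eq_zero_or_pos q.natDegree with hn | hn
    · have : q = 1 := hq.natDegree_eq_zero.1 hn
      rw [this] at hx
      simp at hx
    · rw [Polynomial.eval_eq_sum_range, Finset.sum_range_succ, hq.coeff_natDegree, one_mul] at hx
      have h2 : x ^ q.natDegree = -∑ i ∈ Finset.range q.natDegree, q.coeff i * x ^ i := by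
        linear_combination hx
      have h3 : ‖x‖ ^ q.natDegree ≤
          (∑ i ∈ Finset.range q.natDegree, ‖q.coeff i‖) * ‖x‖ ^ (q.natDegree - 1) := by
        rw [← norm_pow, h2, norm_neg, Finset.sum_mul]
        refine (norm_sum_le _ _).trans (Finset.sum_le_sum ?_)
        intro i hi
        rw [norm_mul, norm_pow]
        apply mul_le_mul_of_nonneg_left _ (norm_nonneg _)
        apply pow_le_pow_right₀ h1.le
        have := Finset.mem_range.1 hi
        omega
      have h4 : ‖x‖ ^ q.natDegree = ‖x‖ * ‖x‖ ^ (q.natDegree - 1) := by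
        rw [← pow_succ']
        congr 1
        omega
      rw [h4] at h3
      have h5 : 0 < ‖x‖ ^ (q.natDegree - 1) := by positivity
      have := le_of_mul_le_mul_right h3 h5
      linarith

end Pool.Agent.TH211.CovJ
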